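import Pool.Agent.WR3.StmtsC

/-!
# Squad WR3, row DNS
-/

set_option autoImplicit false

namespace Pool.Agent.WR3.H38

open Pool.Agent.WIR Pool.Agent.WR2 Pool.Agent.WR3
open scoped BigOperators ENNReal Topology
open Filter

theorem pt_step {a b : ℕ} (hb : b ∈ PT a) (hne : b ≠ a) : T b ∈ PT a := by
  obtain ⟨j, hj⟩ := hb
  cases j with
  | zero => exact absurd hj hne
  | succ j => exact ⟨j, by rw [← Function.iterate_succ_apply]; exact hj⟩

theorem T_odd_bound {b X : ℕ} (h : b % 2 = 1) (hb : b ≤ 2 * X) :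
    1 ≤ T b ∧ T b ≤ 4 * X ∧ ¬ 3 ∣ T b := by
  unfold T
  rw [if_pos h]
  refine ⟨by omega, by omega, ?_⟩
  rintro ⟨c, hc⟩
  omega

open Classical in
theorem count_le (a X : ℕ) :
    ((Finset.Icc 1 (2 * X)).filter (fun b => b ∈ PT a)).card ≤
      1 + ((Finset.Icc 1 X).filter (fun b => b ∈ PT a)).card
        + ((Finset.Icc 1 (4 * X)).filter (fun b => b ∈ PT a ∧ ¬ 3 ∣ b)).card := by
  set A := (Finset.Icc 1 (2 * X)).filter (fun b => b ∈ PT a) with hA
  have hsub : A ⊆ {a} ∪ (A.filter (fun b => b ≠ a ∧ b % 2 = 0)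
      ∪ A.filter (fun b => b ≠ a ∧ b % 2 = 1)) := by
    intro b hb
    by_cases h1 : b = a
    · exact Finset.mem_union_left _ (Finset.mem_singleton.2 h1)
    · refine Finset.mem_union_right _ ?_
      rcases Nat.mod_two_eq_zero_or_one b with h2 | h2
      · exact Finset.mem_union_left _ (Finset.mem_filter.2 ⟨hb, h1, h2⟩)
      · exact Finset.mem_union_right _ (Finset.mem_filter.2 ⟨hb, h1, h2⟩)
  have h1 : (A.filter (fun b => b ≠ a ∧ b % 2 = 0)).card ≤
      ((Finset.Icc 1 X).filter (fun b => b ∈ PT a)).card := by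
    refine Finset.card_le_card_of_injOn (fun b => b / 2) ?_ ?_
    · intro b hb
      have hb' := Finset.mem_filter.1 (Finset.mem_coe.1 hb)
      obtain ⟨hbA, hne, hev⟩ := hb'
      rw [hA, Finset.mem_filter, Finset.mem_Icc] at hbA
      obtain ⟨⟨h3, h4⟩, h5⟩ := hbA
      refine Finset.mem_coe.2 (Finset.mem_filter.2 ⟨Finset.mem_Icc.2
        ⟨by show 1 ≤ b / 2; omega, by show b / 2 ≤ X; omega⟩, ?_⟩)
      have h6 := pt_step h5 hne
      unfold T at h6
      rw [if_neg (by omega)] at h6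
      exact h6
    · intro b hb b' hb' hbb
      have h3 := (Finset.mem_filter.1 (Finset.mem_coe.1 hb)).2.2
      have h4 := (Finset.mem_filter.1 (Finset.mem_coe.1 hb')).2.2
      dsimp only at hbb
      omega
  have h2 : (A.filter (fun b => b ≠ a ∧ b % 2 = 1)).card ≤
      ((Finset.Icc 1 (4 * X)).filter (fun b => b ∈ PT a ∧ ¬ 3 ∣ b)).card := by
    refine Finset.card_le_card_of_injOn T ?_ ?_
    · intro b hb
      have hb' := Finset.mem_filter.1 (Finset.mem_coe.1 hb)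
      obtain ⟨hbA, hne, hev⟩ := hb'
      rw [hA, Finset.mem_filter, Finset.mem_Icc] at hbA
      obtain ⟨⟨h3, h4⟩, h5⟩ := hbA
      obtain ⟨h6, h7, h8⟩ := T_odd_bound hev h4
      exact Finset.mem_coe.2 (Finset.mem_filter.2 ⟨Finset.mem_Icc.2 ⟨h6, h7⟩, pt_step h5 hne, h8⟩)
    · intro b hb b' hb' hbb
      have h3 := (Finset.mem_filter.1 (Finset.mem_coe.1 hb)).2.2
      have h4 := (Finset.mem_filter.1 (Finset.mem_coe.1 hb')).2.2
      unfold T at hbb
      rw [if_pos h3, if_pos h4] at hbb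
      omega
  have h3 := Finset.card_le_card hsub
  have h4 := Finset.card_union_le ({a} : Finset ℕ) (A.filter (fun b => b ≠ a ∧ b % 2 = 0)
      ∪ A.filter (fun b => b ≠ a ∧ b % 2 = 1))
  have h5 := Finset.card_union_le (A.filter (fun b => b ≠ a ∧ b % 2 = 0))
    (A.filter (fun b => b ≠ a ∧ b % 2 = 1))
  rw [Finset.card_singleton] at h4
  omega

theorem dns (h1 : AlxStmt) : DnsStmt := by
  classical
  intro a d ha hd hlim
  by_contra hcon
  obtain ⟨c, hc, n0, X0, hX⟩ := h1 (d / 8) (by positivity)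
  have hS : ∀ X : ℕ, X0 ≤ X →
      (((Finset.Icc 1 X).filter (fun b => b ∈ PT a ∧ ¬ 3 ∣ b)).card : ℝ) ≤ d / 8 * X := by
    intro X hX0
    refine le_trans ?_ (hX X hX0)
    refine Nat.cast_le.2 (Finset.card_le_card ?_)
    intro b hb
    rw [Finset.mem_filter, Finset.mem_Icc] at hb
    obtain ⟨⟨hb1, hb2⟩, ⟨j, hj⟩, hb4⟩ := hb
    rw [Finset.mem_filter, Finset.mem_Icc]
    refine ⟨⟨hb1, hb2⟩, hb4, fun hD => ?_⟩
    exact hcon ⟨b, j, hb1, hj, hb4, c, hc, n0, hD⟩
  have hNS : ∀ X : ℕ, NS (PT a) (X : ℝ)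
      = (((Finset.Icc 1 X).filter (fun b => b ∈ PT a)).card : ℝ) := by
    intro X
    unfold NS
    rw [Nat.floor_natCast]
  have hcount : ∀ X : ℕ, X0 ≤ X → NS (PT a) ((2 * X : ℕ) : ℝ) ≤
      1 + NS (PT a) (X : ℝ) + d / 2 * X := by
    intro X hX0
    have h2 := count_le a X
    have h3 : (((Finset.Icc 1 (2 * X)).filter (fun b => b ∈ PT a)).card : ℝ) ≤
        1 + (((Finset.Icc 1 X).filter (fun b => b ∈ PT a)).card : ℝ)
          + (((Finset.Icc 1 (4 * X)).filter (fun b => b ∈ PT a ∧ ¬ 3 ∣ b)).card : ℝ) := by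
      exact_mod_cast h2
    have h4 := hS (4 * X) (by omega)
    rw [hNS, hNS]
    push_cast at h4
    linarith
  have t1 : Tendsto (fun X : ℕ => NS (PT a) ((2 * X : ℕ) : ℝ) / ((2 * X : ℕ) : ℝ)) atTop (𝓝 d) := by
    refine hlim.comp (tendsto_natCast_atTop_atTop.comp ?_)
    exact tendsto_atTop_mono (fun X => by show X ≤ 2 * X; omega) tendsto_id
  have t2 : Tendsto (fun X : ℕ => NS (PT a) (X : ℝ) / (X : ℝ)) atTop (𝓝 d) :=
    hlim.comp tendsto_natCast_atTop_atTop
  have t3 : Tendsto (fun X : ℕ => (1 / 2 : ℝ) * (1 / (X : ℝ))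
      + (1 / 2) * (NS (PT a) (X : ℝ) / (X : ℝ)) + d / 4) atTop (𝓝 ((1 / 2) * 0 + (1 / 2) * d + d / 4)) := by
    refine Tendsto.add (Tendsto.add ?_ ?_) tendsto_const_nhds
    · exact tendsto_one_div_atTop_nhds_zero_nat.const_mul _
    · exact t2.const_mul _
  have h5 : d ≤ (1 / 2) * 0 + (1 / 2) * d + d / 4 := by
    refine le_of_tendsto_of_tendsto t1 t3 ?_
    filter_upwards [eventually_ge_atTop (max X0 1)] with X hXX
    have hX1 : (1 : ℝ) ≤ (X : ℝ) := by exact_mod_cast le_trans (le_max_right X0 1) hXX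
    have hX0 : (0 : ℝ) < (X : ℝ) := by linarith
    have h6 := hcount X (le_trans (le_max_left X0 1) hXX)
    have h7 : ((2 * X : ℕ) : ℝ) = 2 * (X : ℝ) := by push_cast; ring
    rw [div_le_iff₀ (by rw [h7]; positivity)]
    refine h6.trans (le_of_eq ?_)
    rw [h7]
    field_simp
    ring
  linarith

end Pool.Agent.WR3.H38
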